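import Pool.Agent.helper50.BS.SpecU

/-!
# bs:UC2, the weights `w(S)`
-/

set_option autoImplicit false

open scoped Classical

noncomputable section

namespace Pool.Agent.helper50.BT

open Pool.Agent.helper81.PL

theorem UC2 (hUC1 : UC1_stmt) (hUB6 : UB6_stmt) (hUA1 : UA1_stmt) (hUA2 : UA2_stmt) : UC2_stmt := by
  intro N M n k E W PP Tl h T hH S
  have hl : ∀ C ∈ PP, Rp T (elemF M n k (3 * k) E Tl C (S ∩ helper81.BS.dl n E C))
      (BS.FR (ig n E h) T.x T.y C (S ∩ (ig n E h).dl C)) := by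
    intro C hC
    rw [(hUA1 n E h).1 C]
    exact hUC1 N M n k E W PP Tl h T hH C hC _ Finset.inter_subset_right
  obtain ⟨hnd, -, -⟩ := hUA2 n E W h PP hH.tight.1.1
  have hb := hH.big
  unfold Big at hb
  have e1 : ∀ a b c d e f N : ℕ, a + b + 1 + c + d + e + f ≤ N → e ≤ N ∧ f ≤ N := by
    intro a b c d e f N h
    omega
  have e2 := e1 _ _ _ _ _ _ _ hb
  have h1 := (hUB6 N M n k (3 * k) T (Finset ℕ) PP
    (fun C => elemF M n k (3 * k) E Tl C (S ∩ helper81.BS.dl n E C))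
    (fun C => BS.FR (ig n E h) T.x T.y C (S ∩ (ig n E h).dl C)) hH.two e2.1 e2.2 hl).1
  have h2 : BS.wR (ig n E h) T.x T.y PP.toFinset S =
      (PP.map (fun C => BS.FR (ig n E h) T.x T.y C (S ∩ (ig n E h).dl C))).prod := by
    unfold BS.wR
    exact List.prod_toFinset _ hnd
  rw [h2]
  exact h1

end Pool.Agent.helper50.BT

end
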